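import Mathlib
import Pool.Agent.Q43.FD.Blk

/-!
# The Mumford-Tate conjecture for motives of level two from Frobenius polynomials

`T = T_1 ⊕ ... ⊕ T_r` is a polarised rational Hodge structure of level two, twisted to weight zero
(for example the transcendental part of `H^2(X)(1)`, `X` a surface; `c a` says to which summand the
`a`-th basis vector belongs), and `V` is a rational Hodge structure for which the Lie algebra of the
Mumford-Tate group has only the Hodge types `(-1,1)`, `(0,0)`, `(1,-1)` (for example the algebraic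
classes in `H^2(X)(1)`, or any Hodge structure in the tensor category generated by the `H^1` of
abelian varieties).  The Hodge numbers of `T_i` are `(p_i, q_i, p_i)`, with `p_i ≥ 2` prime to `q_i`
(see `T.Big` in the starting files, which also contains `2 p_i^2 (p_i^2 + 1) < (q_i - 2 p_i) (q_i + p_i)`
and: all endomorphisms of `T` are rational scalars on the `T_i`).  The Galois group `Γ` acts on the
`ℓ`-adic realizations by `α` and `β`; let `P_σ` be the characteristic polynomial of `σ` on `T_i` over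
`ℚ_ℓ` (`frobenius`), for example of a Frobenius element.  Suppose for every `i`, with
`N = 2 p_i + q_i` the rank of `T_i`:

* either, for every `d` with `0 < d < N` there is a `σ` (which may depend on `d`) such that `P_σ` has
  no factor of degree `d` over `ℚ_ℓ`, has `N` different roots, and no quotient of two of them is a
  root of unity (`Regular`); and there are a `τ` and a simple root `μ` in `ℚ_ℓ` of `P_τ` such that
  no quotient of `μ` with another root is a root of unity;
* or (`N` is odd, so that all `P_σ` have the root `1` or `-1`) the first condition for `1 < d < N - 1`,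
  and there are a `σ` with `Regular` such that `P_σ = (X - ε) R`, `ε = 1` or `-1` and `R` has no
  root in `ℚ_ℓ`, and a `τ` with `P_τ = (X - ε') R'` such that `R(1) R(-1) R'(1) R'(-1)` is not a square
  in `ℚ_ℓ` and `1`, `-1` are not roots of `R'`;

and, for different `i`, `k` with the same rank, that there is a `σ` with a root on `T_i` whose
quotient with no root on `T_k` is a root of unity.

**Theorem.** The `T_i ⊗ ℂ` are irreducible for all subgroups of finite index, and the Mumford-Tate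
conjecture for `V ⊕ T` is equivalent to the conjecture for `V`.  In particular, if `V` consists of
classes of type `(0, 0)` on which Galois acts through a finite group (the algebraic classes, for
`H^2(X)`) then the Mumford-Tate conjecture holds for `V ⊕ T`.

So the conjecture for `H^2(X)` is proved by the Frobenius polynomials at a few places.  Nothing is
supposed about the image of the Galois group (irreducibility, semisimplicity, rank, unipotent
elements), about places of bad reduction, or about multiplicative relations between the roots,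
except that they do not differ by roots of unity.

The field `C_ℓ` is identified with the complex numbers by an embedding `j` of `ℚ_ℓ`; the only other
input is the Hodge-Tate decomposition, which always exists (`HodgeTate`).
-/

set_option autoImplicit false

namespace Pool.Agent.Results.MP_de8692_ag.FrobeniusDecides

open MvPolynomial Matrix
open Pool.Agent.W544.PG (HS BD)

noncomputable section

section groups

variable {ι : Type} [Fintype ι] [DecidableEq ι]

/-- The value of a polynomial in the entries at a matrix. -/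
def value {F : Type} [CommRing F] [Algebra F ℂ] (g : Matrix ι ι ℂ)
    (f : MvPolynomial (ι × ι) F) : ℂ :=
  aeval (fun q : ι × ι => g q.1 q.2) f

/-- `G` is the set of complex points of an algebraic subgroup over `ℚ` of the general linear
group. -/
def IsQGroup (G : Set (Matrix ι ι ℂ)) : Prop :=
  (∃ P : Set (MvPolynomial (ι × ι) ℚ), ∀ g, g ∈ G ↔ g.det ≠ 0 ∧ ∀ f ∈ P, value g f = 0) ∧
  1 ∈ G ∧ (∀ a ∈ G, ∀ b ∈ G, a * b ∈ G) ∧ ∀ a ∈ G, a⁻¹ ∈ G

/-- The complex points of the Mumford-Tate group: the smallest algebraic subgroup over `ℚ` which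
contains `h z` for all `z`. -/
def mumfordTate (h : ℂ → Matrix ι ι ℂ) : Set (Matrix ι ι ℂ) :=
  {g | ∀ G, IsQGroup G → (∀ z, z ≠ 0 → h z ∈ G) → g ∈ G}

/-- The Lie algebra of the Mumford-Tate group (over the complex numbers): the tangent space at
`1`. -/
def lieMumfordTate (h : ℂ → Matrix ι ι ℂ) : Set (Matrix ι ι ℂ) :=
  {y | ∀ f : MvPolynomial (ι × ι) ℚ, (∀ m ∈ mumfordTate h, value m f = 0) →
    ∑ x : ι × ι, y x.1 x.2 * value (1 : Matrix ι ι ℂ) (pderiv x f) = 0}

variable {ℓ : ℕ} [Fact ℓ.Prime] {Γ : Type} [Group Γ]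

/-- The polynomials over the complex numbers which vanish on the image of a subgroup of finite
index (with `ℚ_ℓ` embedded by `j`): the equations of the identity component of the Zariski closure
of `ρ(Γ)`. -/
def Vanishes (j : ℚ_[ℓ] →+* ℂ) (ρ : Γ →* Matrix ι ι ℚ_[ℓ]) (f : MvPolynomial (ι × ι) ℂ) : Prop :=
  ∃ Δ : Subgroup Γ, Δ.FiniteIndex ∧ ∀ s ∈ Δ, value ((ρ s).map j) f = 0

/-- The complex points of the identity component of the Zariski closure of `ρ(Γ)`. -/
def monodromy (j : ℚ_[ℓ] →+* ℂ) (ρ : Γ →* Matrix ι ι ℚ_[ℓ]) : Set (Matrix ι ι ℂ) :=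
  {g | ∀ f, Vanishes j ρ f → value g f = 0}

/-- The complex Lie algebra of the Zariski closure of `ρ(Γ)`: the tangent space at `1`. -/
def lieMonodromy (j : ℚ_[ℓ] →+* ℂ) (ρ : Γ →* Matrix ι ι ℚ_[ℓ]) : Set (Matrix ι ι ℂ) :=
  {y | ∀ f, Vanishes j ρ f →
    ∑ x : ι × ι, y x.1 x.2 * value (1 : Matrix ι ι ℂ) (pderiv x f) = 0}

/-- The Mumford-Tate conjecture: the two groups agree. -/
def MumfordTateConjecture (j : ℚ_[ℓ] →+* ℂ) (h : ℂ → Matrix ι ι ℂ)
    (ρ : Γ →* Matrix ι ι ℚ_[ℓ]) : Prop :=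
  ∀ g : Matrix ι ι ℂ, g.det ≠ 0 → (g ∈ monodromy j ρ ↔ g ∈ mumfordTate h)

end groups

variable {κ : Type} [Fintype κ] [DecidableEq κ] {n r : ℕ}

/-- A rational Hodge structure on `ℚ^κ`: the projections `e (a, b)` to the pieces of type `(a, b)`
of `ℂ^κ`; they are exchanged by complex conjugation, and the pieces of every weight are defined
over `ℚ`. -/
structure RationalHodgeStructure (κ : Type) [Fintype κ] [DecidableEq κ] where
  /-- the types which occur -/
  types : Finset (ℤ × ℤ)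
  /-- the projections -/
  e : ℤ × ℤ → Matrix κ κ ℂ
  mul : ∀ a ∈ types, ∀ b ∈ types, e a * e b = if a = b then e a else 0
  sum : ∑ a ∈ types, e a = 1
  conj : ∀ a ∈ types, a.swap ∈ types ∧ (e a).map (starRingEnd ℂ) = e a.swap
  weight : ∀ w : ℤ, ∃ P : Matrix κ κ ℚ,
    ∑ a ∈ types with a.1 + a.2 = w, e a = P.map (algebraMap ℚ ℂ)

/-- The action of `ℂ^×`: multiplication by `z ^ (-a) * conj z ^ (-b)` on the piece of type
`(a, b)`. -/
def RationalHodgeStructure.h (V : RationalHodgeStructure κ) (z : ℂ) : Matrix κ κ ℂ :=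
  ∑ a ∈ V.types, (z ^ (-a.1) * starRingEnd ℂ z ^ (-a.2)) • V.e a

/-- The operator which is `a - b` on the piece of type `(a, b)`. -/
def RationalHodgeStructure.X (V : RationalHodgeStructure κ) : Matrix κ κ ℂ :=
  ∑ a ∈ V.types, ((a.1 - a.2 : ℤ) : ℂ) • V.e a

/-- The Lie algebra of the Mumford-Tate group of `V` has only the Hodge types `(-1,1)`, `(0,0)`,
`(1,-1)`: the eigenvalues of the commutator with `V.X` on it are `-2`, `0`, `2`. -/
def RationalHodgeStructure.AbelianType (V : RationalHodgeStructure κ) : Prop :=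
  ∀ y ∈ lieMumfordTate V.h, ⁅V.X, ⁅V.X, ⁅V.X, y⁆⁆⁆ = (4 : ℂ) • ⁅V.X, y⁆

/-- The action of `ℂ^×` on `V ⊕ T`: on `T` it is multiplication by `conj z / z`, `1`, `z / conj z`
on the parts where `T.x` is `1`, `0`, `-1`. -/
def hodge (V : RationalHodgeStructure κ) (T : HS n) (z : ℂ) :
    Matrix (κ ⊕ Fin n) (κ ⊕ Fin n) ℂ :=
  fromBlocks (V.h z) 0 0 (1 + ((starRingEnd ℂ z / z - 1) / 2) • (T.x * T.x + T.x) +
    ((z / starRingEnd ℂ z - 1) / 2) • (T.x * T.x - T.x))

variable {ℓ : ℕ} [Fact ℓ.Prime] {Γ : Type} [Group Γ]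

/-- An `ℓ`-adic integral matrix as a matrix over `ℚ_ℓ`. -/
def rat (g : Matrix (Fin n) (Fin n) ℤ_[ℓ]) : Matrix (Fin n) (Fin n) ℚ_[ℓ] :=
  g.map (algebraMap ℤ_[ℓ] ℚ_[ℓ])

/-- The representation `α ⊕ β` of the Galois group on `V ⊕ T`. -/
def galois (α : Γ →* Matrix κ κ ℚ_[ℓ]) (β : Γ →* Matrix (Fin n) (Fin n) ℤ_[ℓ]) :
    Γ →* Matrix (κ ⊕ Fin n) (κ ⊕ Fin n) ℚ_[ℓ] where
  toFun σ := fromBlocks (α σ) 0 0 (rat (β σ))
  map_one' := (Pool.Agent.Y95.MT.tot α β).map_one
  map_mul' := (Pool.Agent.Y95.MT.tot α β).map_mul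

/-- The intersection form over `ℚ_ℓ`. -/
def form (ℓ : ℕ) [Fact ℓ.Prime] (T : HS n) : Matrix (Fin n) (Fin n) ℚ_[ℓ] :=
  T.Q.map (algebraMap ℚ ℚ_[ℓ])

/-- The space `T_i ⊗ ℂ`. -/
def part (c : Fin n → Fin r) (i : Fin r) : Submodule ℂ (Fin n → ℂ) where
  carrier := {w | ∀ a, c a ≠ i → w a = 0}
  zero_mem' := fun _ _ => rfl
  add_mem' := by
    intro x y hx hy a ha
    rw [Pi.add_apply, hx a ha, hy a ha, add_zero]
  smul_mem' := by
    intro z x hx a ha
    rw [Pi.smul_apply, hx a ha, smul_zero]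

/-- A Hodge-Tate operator for the representation on `V ⊕ T`: an element `(X, D)` of the complex Lie
algebra of the Zariski closure of the image of Galois such that `D` has the eigenvalues `1`, `0`,
`-1`, the eigenvalues `1` and `-1` together with multiplicity `2 p_i` on `T_i ⊗ ℂ`, and such that
the commutator with `X` has the eigenvalues `-1`, `0`, `1` on the Lie algebra of the Zariski
closure of the image of Galois in `GL(V)`.  Over `C_ℓ` such an operator exists by theorems of Sen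
and Faltings (and of Faltings and Deligne on abelian varieties for the last property). -/
def HodgeTate (c : Fin n → Fin r) (p : Fin r → ℕ) (j : ℚ_[ℓ] →+* ℂ)
    (α : Γ →* Matrix κ κ ℚ_[ℓ]) (β : Γ →* Matrix (Fin n) (Fin n) ℤ_[ℓ]) : Prop :=
  ∃ (X : Matrix κ κ ℂ) (D : Matrix (Fin n) (Fin n) ℂ),
    fromBlocks X 0 0 D ∈ lieMonodromy j (galois α β) ∧ D * D * D = D ∧
    (∀ i, ∑ a with c a = i, (D * D) a a = 2 * (p i : ℂ)) ∧
    ∀ y ∈ lieMonodromy j α, ⁅X, ⁅X, ⁅X, y⁆⁆⁆ = ⁅X, y⁆

/-- `T_i ⊗ ℂ` is irreducible for every subgroup of finite index of `Γ`. -/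
def AbsolutelyIrreducible (c : Fin n → Fin r) (j : ℚ_[ℓ] →+* ℂ)
    (β : Γ →* Matrix (Fin n) (Fin n) ℤ_[ℓ]) (i : Fin r) : Prop :=
  ∀ Δ : Subgroup Γ, Δ.FiniteIndex → ∀ W : Submodule ℂ (Fin n → ℂ), W ≤ part c i →
    (∀ σ ∈ Δ, ∀ w ∈ W, (rat (β σ)).map j *ᵥ w ∈ W) → W = ⊥ ∨ W = part c i

/-- The characteristic polynomial of `σ` on `T_i` over `ℚ_ℓ`. -/
def frobenius (c : Fin n → Fin r) (β : Γ →* Matrix (Fin n) (Fin n) ℤ_[ℓ]) (i : Fin r) (σ : Γ) :
    Polynomial ℚ_[ℓ] :=
  ((rat (β σ)).submatrix (fun a : {a // c a = i} => a.1) (fun a => a.1)).charpoly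

/-- The roots of `P` are different, and no quotient of two of them is a root of unity. -/
def Regular (j : ℚ_[ℓ] →+* ℂ) (P : Polynomial ℚ_[ℓ]) : Prop :=
  P.Separable ∧ ∀ x y : ℂ, P.eval₂ j x = 0 → P.eval₂ j y = 0 → ∀ m : ℕ, 0 < m → x ^ m = y ^ m → x = y

/-- `P` has no factor of degree `d` over `ℚ_ℓ`. -/
def NoFactor (P : Polynomial ℚ_[ℓ]) (d : ℕ) : Prop :=
  ∀ f : Polynomial ℚ_[ℓ], f.Monic → f.natDegree = d → ¬ f ∣ P

/-- `μ` is a simple root of `P`, and no quotient of `μ` with another root is a root of unity. -/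
def Isolated (j : ℚ_[ℓ] →+* ℂ) (P : Polynomial ℚ_[ℓ]) (μ : ℚ_[ℓ]) : Prop :=
  P.rootMultiplicity μ = 1 ∧
    ∀ x : ℂ, P.eval₂ j x = 0 → ∀ m : ℕ, 0 < m → x ^ m = j μ ^ m → x = j μ

/-- `P = (X - ε) R` with `ε ^ 2 = 1`, `R` has no root, `P' = (X - ε') R'`, `1` and `-1` are not roots
of `R'` and `R(1) R(-1) R'(1) R'(-1)` is not a square. -/
def TwoPolynomials (P P' : Polynomial ℚ_[ℓ]) : Prop :=
  ∃ (ε ε' : ℚ_[ℓ]) (R R' : Polynomial ℚ_[ℓ]), ε * ε = 1 ∧ P = (Polynomial.X - Polynomial.C ε) * R ∧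
    P' = (Polynomial.X - Polynomial.C ε') * R' ∧ (∀ x, R.eval x ≠ 0) ∧ R'.eval 1 ≠ 0 ∧
    R'.eval (-1) ≠ 0 ∧ ¬ IsSquare ((R.eval 1 * R.eval (-1)) * (R'.eval 1 * R'.eval (-1)))

/-- The conditions on the Frobenius polynomials on `T_i`; `N` is the rank. -/
def FrobeniusConditions (c : Fin n → Fin r) (j : ℚ_[ℓ] →+* ℂ)
    (β : Γ →* Matrix (Fin n) (Fin n) ℤ_[ℓ]) (i : Fin r) (N : ℕ) : Prop :=
  ((∀ d, 0 < d → d < N →
      ∃ σ, Regular j (frobenius c β i σ) ∧ NoFactor (frobenius c β i σ) d) ∧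
    ∃ τ μ, Isolated j (frobenius c β i τ) μ) ∨
  ((∃ σ τ, Regular j (frobenius c β i σ) ∧
      TwoPolynomials (frobenius c β i σ) (frobenius c β i τ)) ∧
    ∀ d, 1 < d → d + 1 < N →
      ∃ σ, Regular j (frobenius c β i σ) ∧ NoFactor (frobenius c β i σ) d)

/-- Some `σ` has a root on `T_i` whose quotient with no root on `T_k` is a root of unity. -/
def DifferentRoots (c : Fin n → Fin r) (j : ℚ_[ℓ] →+* ℂ)
    (β : Γ →* Matrix (Fin n) (Fin n) ℤ_[ℓ]) (i k : Fin r) : Prop :=
  ∃ (σ : Γ) (x : ℂ), (frobenius c β i σ).eval₂ j x = 0 ∧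
    ∀ y : ℂ, (frobenius c β k σ).eval₂ j y = 0 → ∀ m : ℕ, 0 < m → x ^ m ≠ y ^ m

/-- **The Mumford-Tate conjecture from Frobenius polynomials**: under the conditions on the
characteristic polynomials of elements of the Galois group on the `T_i`, the `T_i ⊗ ℂ` are
irreducible for all subgroups of finite index, the Mumford-Tate conjecture for `V ⊕ T` is
equivalent to the conjecture for `V`, and it holds if `V` consists of classes of type `(0, 0)` on
which Galois acts through a finite group. -/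
theorem result (T : HS n) (c : Fin n → Fin r) (p q : Fin r → ℕ) (hT : T.Big c p q)
    (hp : ∀ i, 2 ≤ p i) (hpq : ∀ i, Nat.Coprime (p i) (q i))
    (V : RationalHodgeStructure κ) (hV : V.AbelianType)
    (α : Γ →* Matrix κ κ ℚ_[ℓ]) (β : Γ →* Matrix (Fin n) (Fin n) ℤ_[ℓ])
    (hβ : ∀ σ, (rat (β σ))ᵀ * form ℓ T * rat (β σ) = form ℓ T) (hc : ∀ σ, BD c (β σ))
    (j : ℚ_[ℓ] →+* ℂ) (hHT : HodgeTate c p j α β)
    (hF : ∀ i, FrobeniusConditions c j β i (2 * p i + q i))
    (hD : ∀ i k, i ≠ k → 2 * p i + q i = 2 * p k + q k → DifferentRoots c j β i k) :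
    (∀ i, AbsolutelyIrreducible c j β i) ∧
    (MumfordTateConjecture j (hodge V T) (galois α β) ↔ MumfordTateConjecture j V.h α) ∧
    (V.types = {(0, 0)} → (Set.range α).Finite →
      MumfordTateConjecture j (hodge V T) (galois α β)) := by
  obtain ⟨X, D, hXD, hD3, htr, hX⟩ := hHT
  have hg : Pool.Agent.Y95.MT.GalT c T.Q β := ⟨hβ, hc⟩
  have hcard : ∀ i, Fintype.card {a // c a = i} = 2 * p i + q i := by
    intro i
    rw [Fintype.card_subtype, ← hT.rk i]
  have hI : ∀ i, Q43.HTM.Irr c (Q43.HTM.Rj β j) i := fun i =>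
    Q43.FD.irr_block hg hT.bQ (by rw [hcard]; exact hF i)
  have hN : ∀ i k, i ≠ k → Q43.HTM.NonIso c (Q43.HTM.Rj β j) i k := fun i k hik =>
    Q43.FD.noniso_block hg (hI i) (hI k) (by rw [hcard, hcard]; exact hD i k hik)
  have hmain : MumfordTateConjecture j (hodge V T) (galois α β) ↔ MumfordTateConjecture j V.h α := by
    have h := Q43.HTM.main_HT (T := T) (c := c) (p := p) (q := q) (v := α) (β := β) (j := j) hT hp
      hpq ⟨V.types, V.e, V.mul, V.sum, V.conj, V.weight⟩ hV hg hXD hD3 htr hX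
    exact ⟨fun h1 => (h.1 h1).1, fun h1 => h.2 ⟨h1, hI, hN⟩⟩
  refine ⟨hI, hmain, fun h1 h2 => hmain.2 ?_⟩
  exact Q43.HTM.MTCj_types (v := α) (j := j) ⟨V.types, V.e, V.mul, V.sum, V.conj, V.weight⟩ h1 h2

end

end Pool.Agent.Results.MP_de8692_ag.FrobeniusDecides
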