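import Pool.Agent.Q60.GT.Tate

/-!
# The Mumford-Tate conjecture for a motive is a statement on its tensor square and its determinants

Let `k` be a finitely generated field of characteristic zero, embedded in the complex numbers, `M` a
pure motive over `k` (for motivated cycles or for absolute Hodge cycles) of weight `w`, `V` its Hodge
realisation, with a basis indexed by `κ`, `Q` the matrix of a polarisation, `ℓ` a prime number and `ρ` the
representation of the absolute Galois group `Γ` of `k` on the `ℓ`-adic realisation `V_ℓ = V ⊗ ℚ_ℓ`. The
group acts by similitudes of `Q`, and by Deligne's theorem the eigenvalues of a suitable Frobenius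
element have all the same absolute value, which is not `1` if `w ≠ 0`.

Consider the following conditions.

* (H) The endomorphisms of the Hodge structure `V ⊗ V` commute with a subgroup of finite index of `Γ`.
* (T) The endomorphisms of `V_ℓ ⊗ V_ℓ` which commute with a subgroup of finite index of `Γ` are
  `ℚ_ℓ`-combinations of endomorphisms of the Hodge structure `V ⊗ V`.
* (D1) For each `B` in the Lie algebra of `G_ℓ` there is `B'` in the Lie algebra of `MT(V)` over `ℚ_ℓ` with
  `tr (B c) = tr (B' c)` for all `c` in the centre `Z` of the algebra of endomorphisms of the Hodge
  structure `V`.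
* (D2) For each `B` in the Lie algebra of `MT(V)` over `ℚ_ℓ` there is `B'` in the Lie algebra of `G_ℓ` with
  `tr (B c) = tr (B' c)` for all `c` in `Z`.
* (D2') The same for all `c` in the centre of the algebra of those endomorphisms of `V_ℓ` which commute
  with a subgroup of finite index of `Γ`.

**Theorem.**

* `G_ℓ° ⊂ MT(V)` if and only if (H) and (D1) hold. No semisimplicity is needed.
* If `V_ℓ` is semisimple: `MT(V) ⊂ G_ℓ°` if and only if (T) and (D2') hold.
* `G_ℓ° = MT(V)`, that is the Mumford-Tate conjecture for `M` and `ℓ` holds, if and only if `V_ℓ` is
  semisimple and (H), (T), (D1) and (D2) hold.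

There is no condition on the centre `Z`. If `Z = E_1 × ... × E_r` is the product of the fields `E_j` and
`V = V_1 + ... + V_r` is the decomposition of `V`, then `V_j` is a vector space over `E_j`, and the linear
forms `B ↦ tr (B c)`, `c` in `Z`, give the derivative of the homomorphism `g ↦ det_{E_j} (g | V_j)` to the
product of the tori `Res_{E_j/ℚ} G_m`: so (D1) and (D2) say that the Lie algebras of the two groups have
the same image in the Lie algebra of this torus. This is the Mumford-Tate conjecture for the
determinants of the `V_j` over `E_j`, Hodge structures of rank one over `E_j`, which belong to abelian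
`ℓ`-adic representations; it is known for abelian motives by the theory of complex multiplication
(Serre, Deligne). It is empty if `Z` is a product of totally real fields. So in these cases the
Mumford-Tate conjecture is exactly the equality of the Hodge endomorphisms and the Tate endomorphisms
of the one motive `M ⊗ M`, together with semisimplicity.

The proof. Let `h` and `g` be the skew parts of the Lie algebras of the two groups, subspaces of
`End V`. The projector of `End V` onto `h` given by the polarisation is an endomorphism of the Hodge
structure `V ⊗ V`, so by (H) it commutes with `g`; for `B` in `g` the difference `z` of `B` and its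
projection `y` commutes with `h` and with all Hodge endomorphisms, so it is in `Z ⊗ ℚ_ℓ`. The trace form
is nondegenerate on `Z` and on `h` (positivity) and their orthogonal projections commute; so the elements
of `h` have the same traces against `Z` as elements of the centre of `h`, and `z` is in `h` by (D1).
Conversely, by (T) the projector onto `g` is a combination of Hodge endomorphisms; this implies
`[h, h] ⊂ g`, and the elements of `h` with zero traces against `Z` are in `[h, h]`. An element of the
centre of `h` is the sum of an element of `g` and an element of the centre of the algebra of the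
endomorphisms of the `g`-module `V`, where the trace form is nondegenerate because `V_ℓ` is semisimple.
-/

namespace Pool.Agent.Results.MP_de8692_ag.TensorSquareAndTraces

open Pool.Agent.Q60.GL Pool.Agent.Q60.GT

variable {κ : Type} [Fintype κ] [DecidableEq κ] {w : ℤ} {ℓ : ℕ} [Fact ℓ.Prime] {Γ : Type}
  [Group Γ]

/-- **The Mumford-Tate conjecture is a statement on the tensor square and the determinants.** -/
theorem result (V : HodgeStructure κ w) (Q : Matrix κ κ ℚ) (hQ : IsPolarisation V Q)
    (ρ : Γ →* Matrix κ κ ℚ_[ℓ]) (hρ : Similitudes w Q ρ) (hpure : w ≠ 0 → HasPureElement ρ) :
    (MonodromyInMumfordTate V.h ρ ↔ HodgeIsTate V ρ ∧ TracesBelow V ρ) ∧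
    (Semisimple ρ → (MumfordTateInMonodromy V.h ρ ↔ TateIsHodge V ρ ∧ TracesAboveTate V ρ)) ∧
    (MumfordTateConjecture V.h ρ ↔ Semisimple ρ ∧ HodgeIsTate V ρ ∧ TateIsHodge V ρ ∧
      TracesBelow V ρ ∧ TracesAbove V ρ) :=
  ⟨mon_gen_iff hQ hρ, fun hss => mt_gen_iff hQ hρ hpure hss, mtc_gen hQ hρ hpure⟩

end Pool.Agent.Results.MP_de8692_ag.TensorSquareAndTraces
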