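import Pool.Agent.Y142.SU.Top
import Pool.Agent.Y405.ZO.Frob
import Pool.Agent.Y484.ZI.IntRes
import Pool.Agent.Y726.ZI.Cheb
import Pool.Agent.Y681.ZI.Dens
import Pool.Agent.Y537.ZI.Multi
import Pool.Agent.Y614.ZD.Badd
import Pool.Agent.Y100.ZD.Sub
import Pool.Agent.Y255.SS.LF
import Pool.Agent.Y297.SS.CF
import Pool.Agent.Y708.SS.Loc
import Pool.Agent.Y936.SS.Logr
import Pool.Agent.Y518.SS.Krs
import Pool.Agent.Y737.SS.Chara
import Pool.Agent.Y932.SI.Subf
import Pool.Agent.Y421.SI.EF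
import Pool.Agent.Y641.SI.Trd
import Pool.Agent.Y949.SI.Ende
import Pool.Agent.Y708.ZO.Tan
import Pool.Agent.Y710.ZS.Tans
import Pool.Agent.Y246.SU.DCT
import Pool.Agent.Y217.SU.Lieu
import Pool.Agent.Y177.SU.Fftd
import Pool.Agent.Y405.SU.Perf
import Pool.Agent.Y154.SU.Coef
import Pool.Agent.Q184.OI.ROOTU
import Pool.Agent.Q230.OI.FFTU
import Pool.Agent.Q139.OI.INVU

/-!
# Motives of unitary type: open image and Tate classes at 100 percent of the primes `ℓ`

Let `X` be a smooth projective variety over a number field or a finitely generated field `k` of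
characteristic zero and let `V_ℓ`, for all primes `ℓ`, be a direct factor of the `ℓ`-adic cohomology of `X`
(of any degree) which is cut out by algebraic correspondences and on which a number field `E`, Galois over
`ℚ`, acts by correspondences, such that the adjoint of `a ∈ E` for the form `J_ℓ` on `V_ℓ` given by a
polarization is `bar a` for a nontrivial endomorphism `bar` of `E` (then `E` is a CM field and `bar` is complex
conjugation). `V_ℓ` is free of rank `n` over `E ⊗ ℚ_ℓ`, and `J_ℓ` is alternating (odd degree) or symmetric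
(even degree). The representation comes from a profinite group `Γ` (the Galois group of `k` or the
fundamental group of a model); if `k` is not a number field, a closed point of the generic fibre of the
model gives a homomorphism `s` from the Galois group of a number field `K` to `Γ`. At the places `v` of good
reduction the geometric Frobenius element has a characteristic polynomial `P_v` with rational
coefficients and a multiplier `q_v`, independent of `ℓ`.

The image of the Galois group is contained in the group of the similitudes of `J_ℓ` which commute with `E`,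
a group of unitary similitudes over `E ⊗ ℚ_ℓ`. In the generic case one expects for every `ℓ` that it
contains an open subgroup of the special unitary group; this follows from the Mumford-Tate conjecture.

**Theorem.** Suppose that
(1) for some place `w_0` of good reduction the roots of `P_{w_0}` are simple and `x / y = z / u` for roots
`x ≠ y`, `z`, `u` only in the trivial cases `(z, u) = (x, y)` and `(z, u) = (q / y, q / x)`, `q` the multiplier;
(2) `u_0, ..., u_m` are places of good reduction such that the roots of `P_{u_i}` are simple and no quotient of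
two different roots is a root of unity, `F` is the intersection of the splitting fields of these
polynomials, and for every automorphism `g` of the algebraic closure of `ℚ`, of order `f` on `E`,
* for every `d < n [E : ℚ]`, `d > 0`, which is not divisible by `n f`, there are a place `v` of this type and
an automorphism `w` which agrees with `g` on `F` such that no set of `d` roots of `P_v` is stable under `w`;
* there are a place `v` of this type and an automorphism `w` which agrees with `g` on `F` such that `w ^ f`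
(`f` the order of `w` on `E`) has a fixed point in every nonempty set of roots of `P_v` which is stable under
`w` and whose number of elements is divisible by `n f`.
Then for all prime numbers `ℓ` outside of a set of natural density zero:
(a) the Lie algebra of the image of `Γ` contains all `X` which commute with `E`, are skew with respect to
`J_ℓ` and have trace zero over `E ⊗ ℚ_ℓ` (so the image contains an open subgroup of the special unitary
group);
(b) every multilinear form in `k < n` variables on `V_ℓ` which is invariant under the isometries in an open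
subgroup of `Γ` is a linear combination of products of forms `J_ℓ(a x, y)` with `a ∈ E`.

By (b) all Tate classes in the tensor products of `k < n` copies of `V_ℓ` (or of its dual), over all finite
extensions of `k`, are combinations of products of classes of correspondences (the graphs of the elements of
`E` and the polarization), so they are algebraic; in degree `n` there are Weil classes, for which this is
false. Neither semisimplicity nor anything about the representations at single primes is assumed. All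
hypotheses are conditions on finitely many Frobenius polynomials.

The totally real case (symplectic and orthogonal groups over `E`) is the starting file
`RealMultiplicationDensityOne`.

Idea of the proof. At 100 percent of the `ℓ` the commutant of every open subgroup of `Γ` is
`E ⊗ ℚ_ℓ` and the representation is semisimple, so by the double commutant theorem the Lie algebra of the
image generates the whole commutant of `E`. The Frobenius element at `w_0` splits the Lie algebra (over the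
algebraic closure) into root spaces; the pairs `(x, y)` of eigenvalues which occur form a relation which
connects all eigenvalues in an eigenspace of `E` and is transitive, so it contains all roots of the
special unitary group. For (b): the Lie algebra is perfect, so the form is invariant under it, and one
uses the first fundamental theorem for products of special linear groups in degree less than `n`, with
descent from the algebraic closure.
-/

set_option autoImplicit false

namespace Pool.Agent.Results.MP_de8692_ag.UnitaryDensityOne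

open Matrix Polynomial Filter Topology NumberField IsDedekindDomain

/-- the absolute Galois group of `K`, with its profinite (Krull) topology -/
abbrev AbsoluteGaloisGroup (K : Type) [Field K] : Type := Gal(AlgebraicClosure K/K)

/-- `σ` is an (arithmetic) Frobenius element at the prime `v` of the number field `K`: for some prime
`Q` of the algebraic closure above `v` it acts on the residue field as `x ↦ x ^ N(v)` -/
def IsFrobenius {K : Type} [Field K] [NumberField K] (v : HeightOneSpectrum (𝓞 K))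
    (σ : AbsoluteGaloisGroup K) : Prop :=
  ∃ Q : Ideal (𝓞 (AlgebraicClosure K)), Q.IsMaximal ∧
    Q.comap (algebraMap (𝓞 K) (𝓞 (AlgebraicClosure K))) = v.asIdeal ∧
    ∀ x : 𝓞 (AlgebraicClosure K), σ • x - x ^ Ideal.absNorm v.asIdeal ∈ Q

/-- `ρ` is a continuous representation of `Γ` on `ℚ_ℓ ^ N` by similitudes of the nondegenerate symmetric
or alternating form with the matrix `J`; for all `v ∉ S` which are prime to `ℓ` the characteristic
polynomial of (the image under `s` of) the geometric Frobenius elements `σ⁻¹` (`σ` arithmetic) at `v`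
is `P v`, and their multiplier is `q v` -/
def IsPolarizedSystem (K : Type) [Field K] [NumberField K] {Γ : Type} [Group Γ] [TopologicalSpace Γ]
    (s : AbsoluteGaloisGroup K →* Γ) (N ℓ : ℕ) [Fact ℓ.Prime]
    (ρ : Γ →* Matrix (Fin N) (Fin N) ℚ_[ℓ]) (J : Matrix (Fin N) (Fin N) ℚ_[ℓ])
    (S : Set (HeightOneSpectrum (𝓞 K))) (P : HeightOneSpectrum (𝓞 K) → ℚ[X])
    (q : HeightOneSpectrum (𝓞 K) → ℚ) : Prop :=
  Continuous ρ ∧ (Jᵀ = J ∨ Jᵀ = -J) ∧ J.det ≠ 0 ∧
    (∀ γ, ∃ c : ℚ_[ℓ], (ρ γ)ᵀ * J * ρ γ = c • J) ∧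
    ∀ v ∉ S, (ℓ : 𝓞 K) ∉ v.asIdeal → ∀ σ : AbsoluteGaloisGroup K, IsFrobenius v σ →
      (ρ (s σ⁻¹)).charpoly = (P v).map (algebraMap ℚ ℚ_[ℓ]) ∧
        (ρ (s σ⁻¹))ᵀ * J * ρ (s σ⁻¹) = (q v : ℚ_[ℓ]) • J

/-- the roots of `P v` are simple, and different roots have different `n`-th powers for all `n > 0` -/
def IsRegularPlace {K : Type} [Field K] [NumberField K]
    (S : Set (HeightOneSpectrum (𝓞 K))) (P : HeightOneSpectrum (𝓞 K) → ℚ[X])
    (v : HeightOneSpectrum (𝓞 K)) : Prop :=
  v ∉ S ∧ (P v).Separable ∧ ∀ n : ℕ, 0 < n → ∀ x y : ℂ,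
    aeval x (P v) = 0 → aeval y (P v) = 0 → x ^ n = y ^ n → x = y

/-- the roots of `P v` are simple, and the quotients `x / y` of different roots are different, except
for `x / y = (q / y) / (q / x)`, `q` the multiplier -/
def IsGenericPlace {K : Type} [Field K] [NumberField K]
    (S : Set (HeightOneSpectrum (𝓞 K))) (P : HeightOneSpectrum (𝓞 K) → ℚ[X])
    (q : HeightOneSpectrum (𝓞 K) → ℚ) (v : HeightOneSpectrum (𝓞 K)) : Prop :=
  v ∉ S ∧ (P v).Separable ∧ ∀ x y z u : ℂ, aeval x (P v) = 0 → aeval y (P v) = 0 →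
    aeval z (P v) = 0 → aeval u (P v) = 0 → x ≠ y → x * u = z * y →
    (z = x ∧ u = y) ∨ (z * y = (q v : ℂ) ∧ u * x = (q v : ℂ))

/-- the splitting field of `Q` in the algebraic closure of `ℚ` -/
noncomputable def splittingField (Q : ℚ[X]) : Set (AlgebraicClosure ℚ) :=
  (IntermediateField.adjoin ℚ {x : AlgebraicClosure ℚ | aeval x Q = 0} :
    IntermediateField ℚ (AlgebraicClosure ℚ))

/-- the order of the restriction of `g` to the (finite, normal) field `E` -/
noncomputable def orderOn (E : IntermediateField ℚ (AlgebraicClosure ℚ))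
    (g : AbsoluteGaloisGroup ℚ) : ℕ :=
  sInf {k : ℕ | 0 < k ∧ ∀ a ∈ E, (g ^ k) a = a}

/-- `T` is a set of roots of `Q` which is stable under `w` -/
def IsStableSet (w : AbsoluteGaloisGroup ℚ) (Q : ℚ[X]) (T : Set (AlgebraicClosure ℚ)) : Prop :=
  (∀ x ∈ T, aeval x Q = 0) ∧ ∀ x ∈ T, w x ∈ T

/-- the Lie algebra of the image contains the special unitary Lie algebra over `E`: every matrix `X`
which commutes with `E`, is skew with respect to `J` and for which all traces of `X a`, `a ∈ E`, are zero is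
a limit of `ℓ ^ (-k) (ρ (σ_k) - 1)` for a sequence of elements `σ_k` of `Γ` -/
def ContainsSpecialUnitary {Γ : Type} [Group Γ] {N : ℕ} (ℓ : ℕ) [Fact ℓ.Prime]
    {E : IntermediateField ℚ (AlgebraicClosure ℚ)} (ρ : Γ →* Matrix (Fin N) (Fin N) ℚ_[ℓ])
    (ε : E →+* Matrix (Fin N) (Fin N) ℚ_[ℓ]) (J : Matrix (Fin N) (Fin N) ℚ_[ℓ]) : Prop :=
  ∀ X : Matrix (Fin N) (Fin N) ℚ_[ℓ], (∀ a, X * ε a = ε a * X) → Xᵀ * J + J * X = 0 →
    (∀ a, (X * ε a).trace = 0) →
    ∃ σ : ℕ → Γ, Tendsto (fun k : ℕ => ((ℓ : ℚ_[ℓ]) ^ k)⁻¹ • (ρ (σ k) - 1)) atTop (𝓝 X)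

/-- every multilinear form in `k < n` variables on `ℚ_ℓ ^ N` which is invariant under the isometries
`ρ σ`, `σ` in an open subgroup of `Γ`, is a linear combination of the products `∏ J(a_j v_j, v_{π j})` (one
factor for every pair `{j, π j}`), `π` a perfect matching of the variables and `a_j ∈ E` -/
def TateTensorsFrom {Γ : Type} [Group Γ] [TopologicalSpace Γ] {N : ℕ} (n ℓ : ℕ) [Fact ℓ.Prime]
    {E : IntermediateField ℚ (AlgebraicClosure ℚ)} (ρ : Γ →* Matrix (Fin N) (Fin N) ℚ_[ℓ])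
    (ε : E →+* Matrix (Fin N) (Fin N) ℚ_[ℓ]) (J : Matrix (Fin N) (Fin N) ℚ_[ℓ]) : Prop :=
  ∀ k < n,
    ∀ (φ : MultilinearMap ℚ_[ℓ] (fun _ : Fin k => Fin N → ℚ_[ℓ]) ℚ_[ℓ]) (U : Subgroup Γ),
    IsOpen (U : Set Γ) →
    (∀ σ ∈ U, (ρ σ)ᵀ * J * ρ σ = J → ∀ v, φ (fun j => ρ σ *ᵥ v j) = φ v) →
    (fun v => φ v) ∈ Submodule.span ℚ_[ℓ] {f : (Fin k → Fin N → ℚ_[ℓ]) → ℚ_[ℓ] |
      ∃ (π : Equiv.Perm (Fin k)) (a : Fin k → E), (∀ j, π (π j) = j) ∧ (∀ j, π j ≠ j) ∧
        ∀ v, f v = ∏ j with j < π j, ((ε (a j) *ᵥ v j) ⬝ᵥ J *ᵥ v (π j))}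

/-- the set `A` of prime numbers has natural density zero -/
def HasDensityZero (A : Set ℕ) : Prop :=
  Tendsto (fun n : ℕ => (Nat.card {ℓ : ℕ // ℓ ≤ n ∧ ℓ ∈ A} : ℝ) / (Nat.primeCounting n : ℝ))
    atTop (𝓝 0)

/-- **Motives of unitary type at 100 percent of the primes `ℓ`.** -/
theorem result (K : Type) [Field K] [NumberField K] (Γ : Type) [Group Γ] [TopologicalSpace Γ]
    [IsTopologicalGroup Γ] [CompactSpace Γ] (s : AbsoluteGaloisGroup K →* Γ) (hs : Continuous s)
    (N : ℕ) (S : Set (HeightOneSpectrum (𝓞 K))) (hS : S.Finite)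
    (P : HeightOneSpectrum (𝓞 K) → ℚ[X]) (q : HeightOneSpectrum (𝓞 K) → ℚ)
    (ρ : ∀ (ℓ : ℕ) [Fact ℓ.Prime], Γ →* Matrix (Fin N) (Fin N) ℚ_[ℓ])
    (J : ∀ (ℓ : ℕ) [Fact ℓ.Prime], Matrix (Fin N) (Fin N) ℚ_[ℓ])
    (hρ : ∀ (ℓ : ℕ) [Fact ℓ.Prime], IsPolarizedSystem K s N ℓ (ρ ℓ) (J ℓ) S P q)
    -- the coefficients
    (E : IntermediateField ℚ (AlgebraicClosure ℚ)) [FiniteDimensional ℚ E] [Normal ℚ E]
    (n : ℕ) (hn : 0 < n) (hN : N = n * Module.finrank ℚ E)
    (ε : ∀ (ℓ : ℕ) [Fact ℓ.Prime], E →+* Matrix (Fin N) (Fin N) ℚ_[ℓ])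
    (hε : ∀ (ℓ : ℕ) [Fact ℓ.Prime] (a : E) (γ : Γ), ε ℓ a * ρ ℓ γ = ρ ℓ γ * ε ℓ a)
    (htr : ∀ (ℓ : ℕ) [Fact ℓ.Prime] (a : E),
      (ε ℓ a).trace = (n : ℚ_[ℓ]) * ((Algebra.trace ℚ E a : ℚ) : ℚ_[ℓ]))
    (bar : E →+* E) (hbar : ∃ a, bar a ≠ a)
    (hεJ : ∀ (ℓ : ℕ) [Fact ℓ.Prime] (a : E), (ε ℓ a)ᵀ * J ℓ = J ℓ * ε ℓ (bar a))
    -- the places
    (w₀ : HeightOneSpectrum (𝓞 K)) (hw₀ : IsGenericPlace S P q w₀)
    (m : ℕ) (u : Fin (m + 1) → HeightOneSpectrum (𝓞 K)) (hu : ∀ i, IsRegularPlace S P (u i))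
    (h1 : ∀ (g : AbsoluteGaloisGroup ℚ) (d : ℕ), 0 < d → d < N → ¬ n * orderOn E g ∣ d →
      ∃ (v : HeightOneSpectrum (𝓞 K)) (w : AbsoluteGaloisGroup ℚ), IsRegularPlace S P v ∧
        (∀ x, (∀ i, x ∈ splittingField (P (u i))) → w x = g x) ∧
        ∀ T, IsStableSet w (P v) T → T.ncard ≠ d)
    (h2 : ∀ g : AbsoluteGaloisGroup ℚ,
      ∃ (v : HeightOneSpectrum (𝓞 K)) (w : AbsoluteGaloisGroup ℚ), IsRegularPlace S P v ∧
        (∀ x, (∀ i, x ∈ splittingField (P (u i))) → w x = g x) ∧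
        ∀ T, IsStableSet w (P v) T → T.Nonempty → n * orderOn E w ∣ T.ncard →
          ∃ x ∈ T, (w ^ orderOn E w) x = x) :
    HasDensityZero {ℓ | ∃ _ : Fact ℓ.Prime, ¬ (ContainsSpecialUnitary ℓ (ρ ℓ) (ε ℓ) (J ℓ) ∧
      TateTensorsFrom n ℓ (ρ ℓ) (ε ℓ) (J ℓ))} := by
  -- the tasks
  have hFROB : Y142.ZO.S_FROB := Y405.ZO.t
  have hINT : Y142.ZI.S_INT := Y484.ZI.t1
  have hCHEB : Y142.ZI.S_CHEB := Y726.ZI.t1
  have hDENS2 : Y142.ZI.S_DENS2 := Y681.ZI.t hCHEB
  have hMULTI : Y142.ZI.S_MULTI := Y537.ZI.t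
  have hLF : Y142.SS.S_LF := Y255.SS.t
  have hCF : Y142.SS.S_CF := Y297.SS.t hLF
  have hLOC : Y142.SS.S_LOC := Y708.SS.Loc.t hCF
  have hLOGR : Y142.SS.S_LOGR := Y936.SS.t
  have hKRS : Y142.SS.S_KRS := Y518.SS.t
  have hCHARA : Y142.SS.S_CHARA := Y737.SS.Chara.t
  have hBADD : Y142.ZD.S_BADD := Y614.ZD.t
  have hSUB : Y142.ZD.S_SUB := Y100.ZD.t
  have hSUBF : Y142.SI.S_SUBF := Y932.SI.Subf.t hLF hCF
  have hEF : Y142.SI.S_EF := Y421.SI.EF.t hLOC
  have hTRD : Y142.SI.S_TRD := Y641.SI.t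
  have hENDE : Y142.SI.S_ENDE := Y949.SI.t
  have hTAN : Y142.ZO.S_TAN := Y708.ZO.t
  have hTANS : Y142.ZS.S_TANS := Y710.ZS.t1
  have hDCT : Y142.SU.S_DCT := Y246.SU.DCT.t
  have hLIEU : Y142.SU.S_LIEU := Y217.SU.t Q184.OI.ROOTU.t
  have hFFTD : Y142.SU.S_FFTD := Y177.SU.t Q230.OI.FFTU.t
  have hPERF : Y142.SU.S_PERF := Y405.SU.t
  have hINVU : Y142.SU.S_INVU := Q139.OI.INVU.t hPERF
  have hCOEF : Y142.SU.S_COEF := Y154.SU.t_COEF
  have hNpos : 0 < N := by
    rw [hN]
    exact Nat.mul_pos hn Module.finrank_pos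
  have hgs : ∀ (ℓ : ℕ) [Fact ℓ.Prime], Y142.SI.GenSys K s N ℓ (ρ ℓ) S P := fun ℓ _ =>
    ⟨(hρ ℓ).1, fun v hv hvℓ σ hσ => ((hρ ℓ).2.2.2.2 v hv hvℓ σ hσ).1⟩
  have hfs : ∀ (ℓ : ℕ) [Fact ℓ.Prime], Y142.SU.FormSys K s N ℓ (ρ ℓ) (J ℓ) S q := fun ℓ _ =>
    ⟨(hρ ℓ).2.1, (hρ ℓ).2.2.1, (hρ ℓ).2.2.2.1,
      fun v hv hvℓ σ hσ => ((hρ ℓ).2.2.2.2 v hv hvℓ σ hσ).2⟩
  have hsys' : ∀ (ℓ : ℕ) [Fact ℓ.Prime], Y142.SS.Sys K N ℓ ((ρ ℓ).comp s) S P := fun ℓ _ =>
    ⟨(hgs ℓ).1.comp hs, fun v hv hvℓ σ hσ => (hgs ℓ).2 v hv hvℓ σ hσ⟩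
  have hnice : ∀ v, IsRegularPlace S P v → Y142.ZS.NiceP S P v := fun v hv =>
    Y142.SS.nice_of_complexA (fun ℓ _ => (ρ ℓ).comp s) hsys' hv.1 hv.2.1 hv.2.2
  have hgen : Y142.ZS.GenP S P q w₀ :=
    Y142.SU.gen_of_complexU hw₀.1 (Y142.SS.monic_of_sysA (fun ℓ _ => (ρ ℓ).comp s) hsys' hw₀.1).1
      (Y142.SU.q_ne_zeroU hNpos s ρ J hfs hw₀.1) hw₀.2.1 hw₀.2.2
  have hLf : ∀ (i : Fin (m + 1)) (x : AlgebraicClosure ℚ),
      x ∈ Y142.ZI.Lf (P (u i)) → x ∈ splittingField (P (u i)) := by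
    intro i x hx
    have h2 : (P (u i)).rootSet (AlgebraicClosure ℚ) =
        {x : AlgebraicClosure ℚ | aeval x (P (u i)) = 0} := by
      ext y
      exact mem_rootSet_of_ne (hu i).2.1.ne_zero
    unfold Y142.ZI.Lf at hx
    rw [h2] at hx
    exact hx
  have hA : ∀ g w : AbsoluteGaloisGroup ℚ,
      (∀ x, (∀ i, x ∈ splittingField (P (u i))) → w x = g x) →
      w⁻¹ * g ∈ Subgroup.closure (⋃ i, Y142.SS.Fix (P (u i))) := by
    intro g w hw
    refine Y142.SS.field_mem _ (fun i => (hu i).2.1.ne_zero) fun x hx => ?_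
    rw [AlgEquiv.mul_apply, ← hw x fun i => hLf i x (hx i), ← AlgEquiv.mul_apply, inv_mul_cancel,
      AlgEquiv.one_apply]
  refine Y142.ZI.DensityZero.mono (Y142.SU.densitySU hTAN hTANS hDCT hLIEU hFFTD hINVU hCOEF hLOC
    hLOGR hKRS hCHARA hMULTI hFROB hINT hDENS2 hBADD hSUB hSUBF hEF hTRD hENDE hS s hs ρ hgs E
    inferInstance inferInstance n hn hN ε hε htr J hfs bar hbar hεJ hgen u
    (fun i => hnice _ (hu i)) ?_ ?_) ?_
  · intro g d hd hdN hnd
    obtain ⟨v, w, hv, hw, hT⟩ := h1 g d hd hdN hnd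
    exact ⟨v, hnice v hv, w, fun T hT1 hT2 => hT T ⟨hT1, hT2⟩, hA g w hw⟩
  · intro g
    obtain ⟨v, w, hv, hw, hT⟩ := h2 g
    exact ⟨v, hnice v hv, w, fun T hT1 hne hT2 hd => hT T ⟨hT1, hT2⟩ hne hd, hA g w hw⟩
  · rintro ℓ ⟨hp, hno⟩
    refine ⟨hp, fun hgood => hno ?_⟩
    have hspan := (hCOEF ℓ N n E inferInstance hn (ε ℓ) (htr ℓ)).2.2.1
    refine ⟨fun X hX1 hX2 hX3 => hgood.1 X (Y142.SU.suLie_of (ε ℓ) hspan hX1 hX2 hX3), ?_⟩
    intro k hk φ U hU hφ
    exact Y142.SU.fromHerm_le (ε ℓ) hspan k (hgood.2 k φ U hk hU hφ)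

end Pool.Agent.Results.MP_de8692_ag.UnitaryDensityOne
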